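import Pool.Agent.AT5.Stmts2
import Pool.Agent.Helper92_AT5.UO5
import Pool.Agent.Helper32_AT2.FST
import Pool.Agent.Helper69_K9.Fmg
import Pool.Agent.Helper65_AT2.TYA

/-!
# Squad AT5, row FS5: the block of the normaliser of `U`
-/

open scoped BigOperators

noncomputable section

namespace Pool.Agent.PP.T5.H56

open Pool.Agent.Helper51_AWC Pool.Agent.Helper79_WRA Pool.Agent.PP Pool.Agent.PP.KF
open Pool.Agent.PP.K9 Pool.Agent.PP.K9.H97 Pool.Agent.PP.H75 Pool.Agent.PP.T3 Pool.Agent.PP.T2

attribute [local instance] Ideal.Quotient.field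

section grp

variable {G : Type} [Group G]

theorem om_le (ℓ a : ℕ) (u : G) : Om ℓ a u ≤ Subgroup.zpowers u := by
  unfold Om
  rw [Subgroup.zpowers_le]
  exact Subgroup.npow_mem_zpowers u _

theorem om_conj (ℓ a : ℕ) (g u : G) : conjS g (Om ℓ a u) = Om ℓ a (g * u * g⁻¹) := by
  unfold conjS Om
  rw [MonoidHom.map_zpowers]
  congr 1
  change g * u ^ ℓ ^ (a - 1) * g⁻¹ = _
  rw [conj_pow]

theorem mem_norm_of_conjS {g : G} {V : Subgroup G} (h : conjS g V = V) :
    g ∈ Subgroup.normalizer (V : Set G) := by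
  rw [Subgroup.mem_normalizer_iff]
  intro x
  constructor
  · intro hx
    have h1 : g * x * g⁻¹ ∈ conjS g V := (T3.H62.conjS_mem_iff x).2 hx
    rwa [h] at h1
  · intro hx
    have h1 : g * x * g⁻¹ ∈ conjS g V := by
      rw [h]
      exact hx
    exact (T3.H62.conjS_mem_iff x).1 h1

end grp

section tools

variable {F G : Type} [Field F] [Group G] [Finite G] {ℓ : ℕ}

/-- the image of an idempotent of `X` under `br_V` as an idempotent of `N(V)` -/
theorem ix_brN (hF : GoodF ℓ F) {V X : Subgroup G} (hV : IsPGroup ℓ V) (hVX : V ≤ X)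
    (hNX : Subgroup.normalizer (V : Set G) ≤ X) {b : G → F} (hb : Ix X b) :
    Ix (Subgroup.normalizer (V : Set G)) (br V b) := by
  have hsupp : ∀ x, x ∉ Subgroup.normalizer (V : Set G) → br V b x = 0 := fun x hx =>
    H66.br_of_not_mem (fun h => hx (T3.H85.cent_le_norm V h))
  refine ⟨hsupp, ?_, ?_⟩
  · intro x y
    change br V b ((y : G) * x * (y : G)⁻¹) = br V b x
    have h1 : cj (y : G) b = b := hb.inv (hNX y.2)
    have h2 : conjS (y : G) V = V := by
      ext x
      rw [T3.H62.mem_conjS]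
      have h3 := Subgroup.mem_normalizer_iff.1 (Subgroup.inv_mem _ y.2) x
      rw [inv_inv] at h3
      exact h3.symm
    have h3 : cj (y : G) (br V b) = br V b := by
      have h4 := T2.H65.cj_br (y : G) V b
      rw [h1, h2] at h4
      exact h4.symm
    exact (cj_eq_iff _ _).1 h3 x
  · rw [← H75.mulF_res _ _ hsupp, ← T2.H32.br_mul hF hV hVX hb hb, hb.mul]

/-- an invertible element of a commutative algebra is not nilpotent -/
theorem inv_nil {z c e : G → F} (hcz : mulF c z = mulF z c) (h1 : mulF (mulF c z) e = e) {n : ℕ}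
    (h2 : (mulF z)^[n] e = 0) : e = 0 := by
  have hST : Function.Commute (mulF c) (mulF z) := by
    intro x
    rw [← H20.mulF_assoc, hcz, H20.mulF_assoc]
  have h3 : (mulF c ∘ mulF z) e = e := by
    change mulF c (mulF z e) = e
    rw [← H20.mulF_assoc, h1]
  have h4 := Function.iterate_fixed h3 n
  rw [hST.comp_iterate n] at h4
  change (mulF c)^[n] ((mulF z)^[n] e) = e at h4
  rw [h2, Function.iterate_fixed (H75.mulF_zero_right c) n] at h4
  exact h4.symm

theorem br_iter (hF : GoodF ℓ F) {V : Subgroup G} (hV : IsPGroup ℓ V) {z f : G → F}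
    (hz : H66.Inv V z) (hf : H66.Inv V f) (n : ℕ) :
    br V ((mulF z)^[n] f) = (mulF (br V z))^[n] (br V f) := by
  induction n with
  | zero => rfl
  | succ n ih =>
    rw [Function.iterate_succ_apply', Function.iterate_succ_apply',
      H66.br_mulF hF hV hz (H66.Inv.iter hz hf n), ih]

theorem iter_res {X : Subgroup G} {z f : G → F} (hz : ∀ x, x ∉ X → z x = 0)
    (hf : ∀ x, x ∉ X → f x = 0) (n : ℕ) :
    (∀ x, x ∉ X → (mulF z)^[n] f x = 0) ∧
    (fun t : X => (mulF z)^[n] f t) = (mulF (fun t : X => z t))^[n] (fun t : X => f t) := by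
  induction n with
  | zero => exact ⟨hf, rfl⟩
  | succ n ih =>
    rw [Function.iterate_succ_apply', Function.iterate_succ_apply', ← ih.2]
    exact ⟨H75.mulF_supp _ hz ih.1, H75.mulF_res _ _ hz⟩

/-- the trichotomy for a class function of `X` in a block of `X` -/
theorem dich_X {X : Subgroup G} {z f : G → F} (hz : ∀ x, x ∉ X → z x = 0)
    (hcl : IsCl (fun t : X => z t)) (hf : Bx X f) :
    (∃ n : ℕ, (mulF z)^[n] f = 0) ∨ T5.Inv (fun t : X => z t) (fun t : X => f t) := by
  rcases H50.blk_dich hf.blk hcl with ⟨n, hn⟩ | h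
  · left
    refine ⟨n, H75.eq_of_res (iter_res hz hf.supp n).1 (fun _ _ => rfl) ?_⟩
    rw [(iter_res hz hf.supp n).2, hn]
    rfl
  · exact Or.inr h

end tools

/-- two class sums which agree on the centraliser of `V` -/
theorem br_clsum_X {F G : Type} [Field F] [Group G] [Finite G] {ℓ : ℕ} [Fact ℓ.Prime]
    {V X : Subgroup G} (pV : IsPGroup ℓ V) (hNX : Subgroup.normalizer (V : Set G) ≤ X) {x : G}
    (hx : x ∈ Subgroup.centralizer (V : Set G)) (h8 : ¬ ℓ ∣ V.relIndex (Cu x)) :
    br V (clsum F X x) = br V (clsum F (⊤ : Subgroup G) x) := by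
  funext t
  by_cases ht : t ∈ Subgroup.centralizer (V : Set G)
  · rw [H66.br_of_mem ht, H66.br_of_mem ht]
    by_cases h1 : ∃ q ∈ (⊤ : Subgroup G), t = q * x * q⁻¹
    · rw [clsum, clsum, if_pos h1, if_pos]
      have hcN := T3.H85.cent_le_norm V
      have h2 := H69.br_clsum (F := F) pV (y := ⟨x, hcN hx⟩) hx h8
      have h3 := congrFun h2 ⟨t, hcN ht⟩
      change br V (clsum F (⊤ : Subgroup G) x) t = clsum F (⊤ : Subgroup _) _ _ at h3
      rw [H66.br_of_mem ht, clsum, clsum, if_pos h1] at h3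
      by_cases h4 : ∃ q ∈ (⊤ : Subgroup (Subgroup.normalizer (V : Set G))),
          (⟨t, hcN ht⟩ : Subgroup.normalizer (V : Set G)) = q * ⟨x, hcN hx⟩ * q⁻¹
      · obtain ⟨q, -, hq⟩ := h4
        refine ⟨q, hNX q.2, ?_⟩
        have h5 := congrArg Subtype.val hq
        exact h5
      · rw [if_neg h4] at h3
        exact absurd h3 one_ne_zero
    · rw [clsum, clsum, if_neg h1, if_neg]
      rintro ⟨q, -, hq⟩
      exact h1 ⟨q, Subgroup.mem_top q, hq⟩
  · rw [H66.br_of_not_mem ht, H66.br_of_not_mem ht]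

/-- FS5 -/
theorem fs5 (chr : ChrStmt) (zpt : ZptStmt) (ksp : KspStmt) (fmg : FmgStmt) (dun : DunStmt) :
    Fs5Stmt := by
  intro ℓ _ M _ hM G _ _ a e V u y hL
  have hF : GoodF ℓ (FF M) := H50.fld ℓ Fact.out M hM
  obtain ⟨-, hNV⟩ := chr ℓ G a V u hL.pos hL.mem hL.cen hL.ord hL.small
  obtain ⟨U, hU⟩ : ∃ U : Subgroup G, U = Om ℓ a u := ⟨_, rfl⟩
  have hUu : U ≤ Subgroup.zpowers u := by
    rw [hU]
    exact om_le ℓ a u
  have hUV : U ≤ V := hUu.trans (by rw [Subgroup.zpowers_le]; exact hL.mem)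
  have hUp : IsPGroup ℓ U := hL.tp.pg.to_le hUV
  have huy : u * y = y * u := Subgroup.mem_centralizer_iff.1 hL.yc u hL.mem
  -- the normaliser of `U`
  obtain ⟨X, hX⟩ : ∃ X : Subgroup G, X = Subgroup.normalizer (U : Set G) := ⟨_, rfl⟩
  rw [← hU, ← hX] at hNV
  have hCUX : Subgroup.centralizer (U : Set G) ≤ X := by
    rw [hX]
    exact T3.H85.cent_le_norm U
  have hVX : V ≤ X := Subgroup.le_normalizer.trans hNV
  have hCX : Subgroup.centralizer (V : Set G) ≤ X := (T3.H85.cent_le_norm V).trans hNV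
  have hUX : U ≤ X := hUV.trans hVX
  have hCVU : Subgroup.centralizer (V : Set G) ≤ Subgroup.centralizer (U : Set G) :=
    Subgroup.centralizer_le hUV
  have huyC : u * y ∈ Subgroup.centralizer (V : Set G) := by
    rw [Subgroup.mem_centralizer_iff]
    intro v hv
    have h1 := hL.cen v hv
    have h2 := Subgroup.mem_centralizer_iff.1 hL.yc v hv
    calc v * (u * y) = v * u * y := by group
      _ = u * (v * y) := by rw [h1]; group
      _ = u * y * v := by rw [h2]; group
  have huyX : u * y ∈ X := hCX huyC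
  -- the idempotent `br_U(e)` of `X`
  have hEid : IsIdem (fun t : X => br U e t) :=
    (H20.brm ℓ (FF M) hF G U X hUp hCUX (le_of_eq hX)).2.2 e hL.blk.1
  have hEX : Ix X (br U e) :=
    ⟨fun x hx => H66.br_of_not_mem (fun h => hx (hCUX h)), hEid⟩
  have hbrE : ∀ W : Subgroup G, U ≤ W → br W (br U e) = br W e := by
    intro W hUW
    funext g
    by_cases hg : g ∈ Subgroup.centralizer (W : Set G)
    · rw [H66.br_of_mem hg, H66.br_of_mem hg, H66.br_of_mem (Subgroup.centralizer_le hUW hg)]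
    · rw [H66.br_of_not_mem hg, H66.br_of_not_mem hg]
  obtain ⟨fmg1, ⟨hbe, -⟩, -⟩ := fmg ℓ M hM G e hL.blk V hL.tp
  have hBe : Bx (Subgroup.normalizer (V : Set G)) (br V e) :=
    ⟨fun x hx => H66.br_of_not_mem (fun h => hx (T3.H85.cent_le_norm V h)), hbe⟩
  have hbe0 : br V e ≠ 0 := by
    intro h0
    apply hbe.2.1
    rw [h0]
    rfl
  -- blocks of `X` under `br_U(e)` for which `V` is good
  have key1 : ∀ f' : G → FF M, Bx X f' → mulF (br U e) f' = f' → br V f' ≠ 0 →
      br V f' = br V e := by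
    intro f' hf' hund h0
    have h1 := ix_brN hF hL.tp.pg hVX hNV hf'.ix
    have h2 : mulF (br V e) (br V f') = br V f' := by
      have h3 := congrArg (br V) hund
      rw [T2.H32.br_mul hF hL.tp.pg hVX hEX hf'.ix, hbrE V hUV] at h3
      exact h3
    rcases hBe.dich' h1 with h | h
    · rw [← h2, h]
    · exact absurd (by rw [← h2, h]) h0
  have key2 : ∀ f' f'' : G → FF M, Bx X f' → Bx X f'' → br V f' = br V e → br V f'' = br V e →
      f' = f'' := by
    intro f' f'' hf' hf'' h1 h2
    rcases hf'.dich hf'' with h | h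
    · exact h
    · exfalso
      have h3 := congrArg (br V) h
      rw [T2.H32.br_mul hF hL.tp.pg hVX hf'.ix hf''.ix, h1, h2, T2.H32.br_zero, hBe.ix.mul] at h3
      exact hbe0 h3
  -- the block `f`
  have hext_add : ∀ a b : X → FF M, PP.ext0 X (a + b) = PP.ext0 X a + PP.ext0 X b := by
    intro a b
    funext x
    by_cases hx : x ∈ X
    · rw [H46.ext0_of_mem _ hx, Pi.add_apply, Pi.add_apply, H46.ext0_of_mem _ hx,
        H46.ext0_of_mem _ hx]
    · rw [H46.ext0_of_not_mem _ hx, Pi.add_apply, H46.ext0_of_not_mem _ hx,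
        H46.ext0_of_not_mem _ hx, add_zero]
  have hext_zero : PP.ext0 X (0 : X → FF M) = 0 := by
    funext x
    by_cases hx : x ∈ X
    · rw [H46.ext0_of_mem _ hx]
      rfl
    · rw [H46.ext0_of_not_mem _ hx]
      rfl
  have hextE : PP.ext0 X (fun t : X => br U e t) = br U e := by
    funext x
    by_cases hx : x ∈ X
    · rw [H46.ext0_of_mem _ hx]
    · rw [H46.ext0_of_not_mem _ hx, hEX.supp x hx]
  obtain ⟨b₀, hb₀, heb₀, hL₀⟩ := K9.H24.exists_blk
    (fun a : X → FF M => br V (PP.ext0 X a))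
    (by
      show br V (PP.ext0 X 0) = 0
      rw [hext_zero, T2.H32.br_zero])
    (by
      intro a b
      show br V (PP.ext0 X (a + b)) = br V (PP.ext0 X a) + br V (PP.ext0 X b)
      rw [hext_add, T2.H32.br_add])
    hEid
    (by
      show br V (PP.ext0 X (fun t : X => br U e t)) ≠ 0
      rw [hextE, hbrE V hUV]
      exact hbe0)
  have hrestr : (fun t : X => PP.ext0 X b₀ t) = b₀ := H46.restr_ext0 _
  obtain ⟨f, hf⟩ : ∃ f : G → FF M, f = PP.ext0 X b₀ := ⟨_, rfl⟩
  rw [← hf] at hrestr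
  have hfX : Bx X f := by
    refine ⟨fun x hx => ?_, ?_⟩
    · rw [hf]
      exact H46.ext0_of_not_mem _ hx
    · rw [hrestr]
      exact hb₀
  have hund : mulF (br U e) f = f := by
    apply H75.eq_of_res (H75.mulF_supp X hEX.supp hfX.supp) hfX.supp
    rw [H75.mulF_res X f hEX.supp, hrestr]
    exact heb₀
  have hbf : br V f = br V e := key1 f hfX hund (by rw [hf]; exact hL₀)
  have hsupp : ∀ x, x ∉ Subgroup.centralizer (U : Set G) → f x = 0 := by
    intro x hx
    rw [← T2.H32.supp_cent hF hUp hUX hCUX (le_of_eq hX) hfX.ix]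
    exact H66.br_of_not_mem hx
  -- the class sum
  obtain ⟨z, hz⟩ : ∃ z : G → FF M, z = clsum (FF M) X (u * y) := ⟨_, rfl⟩
  have hzs : ∀ x, x ∉ X → z x = 0 := by
    rw [hz]
    exact H92.clsum_supp huyX
  have hzi : ∀ n ∈ X, cj n z = z := by
    rw [hz]
    exact fun n hn => H92.cj_clsum _ hn
  have hzcl : IsCl (fun t : X => z t) := by
    intro s t
    exact (cj_eq_iff _ _).1 (hzi t t.2) s
  have hbz : br V z = br V (clsum (FF M) (⊤ : Subgroup G) (u * y)) := by
    rw [hz]
    exact br_clsum_X hL.tp.pg hNV huyC hL.syl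
  have hinv : T5.Inv (fun t : X => z t) (fun t : X => f t) := by
    rcases dich_X hzs hzcl hfX with ⟨n, hn⟩ | h
    · exfalso
      obtain ⟨c, hc, hcK⟩ := hL.inv
      have hKcl : IsCl (clsum (FF M) (⊤ : Subgroup G) (u * y)) := H50.isCl_clsum _
      have h1 : (mulF (br V z))^[n] (br V e) = 0 := by
        rw [← hbf, ← br_iter hF hL.tp.pg (fun p hp => (cj_eq_iff p z).1 (hzi p (hVX hp)))
          (fun p hp => (cj_eq_iff p f).1 (hfX.ix.inv (hVX hp))), hn, T2.H32.br_zero]
      rw [hbz] at h1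
      apply hbe0
      have h3 := H66.br_mulF hF hL.tp.pg (H66.IsCl.inv hc V) (H66.IsCl.inv hKcl V)
      have h4 := H66.br_mulF hF hL.tp.pg (H66.IsCl.inv hKcl V) (H66.IsCl.inv hc V)
      refine inv_nil (c := br V c) ?_ ?_ h1
      · rw [← h3, ← h4, H75.mulF_comm_cl hc]
      · rw [← h3, ← H66.br_mulF hF hL.tp.pg
          (H66.Inv.mulF (H66.IsCl.inv hc V) (H66.IsCl.inv hKcl V))
          (H66.IsCl.inv hL.blk.1.1 V), hcK]
    · exact h
  -- good subgroups
  have hVcard : Nat.card (V.subgroupOf X) = Nat.card V :=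
    Nat.card_congr (Subgroup.subgroupOfEquivOfLe hVX).toEquiv
  have hVp : IsPGroup ℓ (V.subgroupOf X) :=
    hL.tp.pg.of_equiv (Subgroup.subgroupOfEquivOfLe hVX).symm
  have hgood : ∀ f' : G → FF M, Bx X f' → mulF (br U e) f' = f' → ∀ Q : Subgroup X,
      IsPGroup ℓ Q → Gd (fun t : X => f' t) Q → Gd e (Q.map X.subtype) := by
    intro f' hf' hund' Q hQ hQf
    have hmul : mulF (fun t : X => br U e t) (fun t : X => f' t) = fun t : X => f' t := by
      rw [← H75.mulF_res X f' hEX.supp, hund']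
    obtain ⟨g, hg1, hg2⟩ := gd_map (gd_of_mul hF hEid.1 hf'.blk.1.1 hmul hQ hQf)
    refine ⟨g, hg1, ?_⟩
    intro h0
    apply hg2
    by_cases hg : g ∈ Subgroup.centralizer (U : Set G)
    · rw [H66.br_of_mem hg, h0]
    · rw [H66.br_of_not_mem hg]
  have hTf : Tp ℓ (fun t : X => f t) (V.subgroupOf X) := by
    refine ⟨hVp, ?_, ?_⟩
    · obtain ⟨g, hg⟩ : ∃ g, br V f g ≠ 0 := by
        by_contra hcon
        push Not at hcon
        apply hbe0
        rw [← hbf]
        exact funext hcon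
      have hgV : g ∈ Subgroup.centralizer (V : Set G) := by
        by_contra hcon
        exact hg (H66.br_of_not_mem hcon)
      rw [H66.br_of_mem hgV] at hg
      exact ⟨⟨g, hCX hgV⟩, (cent_sub hVX _).2 hgV, hg⟩
    · intro Q hQ hQf
      have hcard : Nat.card (Q.map X.subtype) = Nat.card Q :=
        (Nat.card_congr (Q.equivMapOfInjective X.subtype X.subtype_injective).toEquiv).symm
      have h2 := hL.tp.mx _ (hQ.map X.subtype) (hgood f hfX hund Q hQ hQf)
      rw [hcard] at h2
      rw [hVcard]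
      exact h2
  -- uniqueness
  have hnil : ∀ f' : G → FF M, Bx X f' → mulF (br U e) f' = f' → f' ≠ f →
      ∃ n : ℕ, (mulF z)^[n] f' = 0 := by
    intro f' hf' hund' hne
    rcases dich_X hzs hzcl hf' with h | hI
    · exact h
    exfalso
    apply hne
    obtain ⟨δ, hδ⟩ := K9.H57.exists_tp (ℓ := ℓ) hf'.blk.2.1
    obtain ⟨c, hcδ, hc0, hcL⟩ := zpt ℓ M hM X _ hf'.blk δ hδ _ hzcl hI
    obtain ⟨u', hLp, ho, hOm, ⟨n, hn⟩, -⟩ := (ksp ℓ (FF M) G a u y hL.pos hL.ord huy hL.reg).2 1
      c (by rw [cj_one, ← hU, ← hX, ← hz]; exact hc0)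
    rw [conjS_one, ← hU] at hOm
    have hmem : c ^ n ∈ δ := by
      apply hcL
      refine ⟨?_, Commute.pow_left (Commute.refl c) n, ?_⟩
      · obtain ⟨m, hm⟩ := hLp.el
        refine ⟨m, Subtype.ext ?_⟩
        rw [hn] at hm
        exact hm
      · have h1 := hLp.reg
        unfold Reg at h1 ⊢
        rw [hn] at h1
        have h2 : ((((c ^ n)⁻¹ * c : X) : G)) = (((c : G) ^ n)⁻¹ * c : G) := rfl
        rwa [← h2, Subgroup.orderOf_coe] at h1
    have hcoe : ((c ^ n : X) : G) = u' := by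
      rw [hn]
      rfl
    obtain ⟨D, hD⟩ : ∃ D : Subgroup G, D = δ.map X.subtype := ⟨_, rfl⟩
    have hu'D : u' ∈ D := by
      rw [hD]
      exact ⟨c ^ n, hmem, hcoe⟩
    have hu'c : ∀ w ∈ D, w * u' = u' * w := by
      rw [hD]
      rintro _ ⟨w, hw, rfl⟩
      have h3 : w * c = c * w := Subgroup.mem_centralizer_iff.1 hcδ w hw
      have h4 : w * c ^ n = c ^ n * w := ((show Commute w c from h3).pow_right n).eq
      have h5 := congrArg Subtype.val h4
      rw [hn]
      exact h5
    have hUD : U ≤ D := by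
      rw [← hOm]
      refine (om_le ℓ a u').trans ?_
      rw [Subgroup.zpowers_le]
      exact hu'D
    have hDg : Gd e D := by
      rw [hD]
      exact hgood f' hf' hund' δ hδ.pg hδ.gd
    have hDp : IsPGroup ℓ D := by
      rw [hD]
      exact hδ.pg.map _
    have hDle := hL.tp.mx D hDp hDg
    have hDs : Nat.card D < ℓ ^ (2 * a) := lt_of_le_of_lt hDle hL.small
    obtain ⟨chr1, hND⟩ := chr ℓ G a D u' hL.pos hu'D hu'c ho hDs
    rw [hOm, ← hX] at hND
    have hDX : D ≤ X := Subgroup.le_normalizer.trans hND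
    have hDδ : D.subgroupOf X = δ := by
      rw [hD]
      exact Subgroup.comap_map_eq_self_of_injective X.subtype_injective δ
    have hcardD : Nat.card D = Nat.card δ := by
      rw [hD]
      exact (Nat.card_congr (δ.equivMapOfInjective X.subtype X.subtype_injective).toEquiv).symm
    obtain ⟨g, hg, hg0⟩ := hδ.gd
    have hgD : (g : G) ∈ Subgroup.centralizer (D : Set G) := by
      rw [← hDδ] at hg
      exact (cent_sub hDX g).1 hg
    have hbD : br D f' g ≠ 0 := by
      rw [H66.br_of_mem hgD]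
      exact hg0
    have hcardV : Nat.card D = Nat.card V := by
      rcases Nat.lt_or_ge (Nat.card D) (Nat.card V) with hlt | hge
      · exfalso
        have hIN := ix_brN hF hDp hDX hND hf'.ix
        obtain ⟨φ, hφ, hφe, -⟩ := K9.H24.exists_blk
          (fun a : Subgroup.normalizer (D : Set G) → FF M => a) rfl (fun a b => rfl) hIN.idem (by
            intro h0
            have h1 := congrFun h0 ⟨g, T3.H85.cent_le_norm D hgD⟩
            exact hbD h1)
        have hDe : ∀ x, x ∉ Subgroup.normalizer (D : Set G) → br D e x = 0 := fun x hx =>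
          H66.br_of_not_mem (fun h => hx (T3.H85.cent_le_norm D h))
        have h2 : mulF (br D e) (br D f') = br D f' := by
          have h3 := congrArg (br D) hund'
          rw [T2.H32.br_mul hF hDp hDX hEX hf'.ix, hbrE D hUD] at h3
          exact h3
        have hun : mulF (fun t : Subgroup.normalizer (D : Set G) => br D e t) φ = φ := by
          conv_lhs => rw [← hφe]
          rw [← H20.mulF_assoc, ← H75.mulF_res _ _ hDe, h2, hφe]
        obtain ⟨P, hP, hPg, hPlt⟩ := dun ℓ M hM G e hL.blk V hL.tp D hDp hlt φ hφ hun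
        obtain ⟨t, ht, ht0⟩ := gd_map (gd_of_mul hF hIN.idem.1 hφ.1.1 hφe hP hPg)
        obtain ⟨P', hP'⟩ : ∃ P' : Subgroup G,
          P' = P.map (Subgroup.normalizer (D : Set G)).subtype := ⟨_, rfl⟩
        rw [← hP'] at ht
        have hP'X : P' ≤ X := by
          rw [hP']
          exact (Subgroup.map_subtype_le P).trans hND
        have htD : t ∈ Subgroup.centralizer (D : Set G) := by
          by_contra hcon
          exact ht0 (H66.br_of_not_mem hcon)
        rw [H66.br_of_mem htD] at ht0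
        have htX : t ∈ X := by
          by_contra hcon
          exact ht0 (hf'.supp t hcon)
        have hP'p : IsPGroup ℓ P' := by
          rw [hP']
          exact hP.map _
        have h4 := hδ.mx (P'.subgroupOf X) (hP'p.of_equiv (Subgroup.subgroupOfEquivOfLe hP'X).symm)
          ⟨⟨t, htX⟩, (cent_sub hP'X _).2 ht, ht0⟩
        rw [Nat.card_congr (Subgroup.subgroupOfEquivOfLe hP'X).toEquiv, hP',
          ← Nat.card_congr (P.equivMapOfInjective _
            (Subgroup.normalizer (D : Set G)).subtype_injective).toEquiv, ← hcardD] at h4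
        have h5 : Nat.card (D.subgroupOf (Subgroup.normalizer (D : Set G))) = Nat.card D :=
          Nat.card_congr (Subgroup.subgroupOfEquivOfLe Subgroup.le_normalizer).toEquiv
        rw [← h5] at h4
        exact hPlt.ne (Subgroup.eq_of_le_of_card_ge hPlt.le h4)
      · exact le_antisymm hDle hge
    obtain ⟨k, hk⟩ := fmg1 D hDp hDg
    have hDk : D = conjS k V := by
      apply Subgroup.eq_of_le_of_card_ge hk
      rw [card_conjS, hcardV]
    have hkX : k ∈ X := by
      rw [hX]
      apply mem_norm_of_conjS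
      rw [hU, om_conj, ← chr1 (k * u * k⁻¹) ?_ ?_ ?_, ← hU, hOm]
      · rw [hDk]
        exact (T3.H62.conjS_mem_iff u).2 hL.mem
      · rw [hDk]
        intro w hw
        have h1 := hL.cen _ (T3.H62.mem_conjS.1 hw)
        calc w * (k * u * k⁻¹) = k * (k⁻¹ * w * k * u) * k⁻¹ := by group
          _ = k * (u * (k⁻¹ * w * k)) * k⁻¹ := by rw [h1]
          _ = k * u * k⁻¹ * w := by group
      · have h1 := MulEquiv.orderOf_eq (MulAut.conj k) u
        rw [← hL.ord]
        exact h1
    have hbV : br V f' ≠ 0 := by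
      intro h0
      apply hbD
      have h1 := T2.H65.cj_br k V f'
      rw [hf'.ix.inv hkX, ← hDk, h0] at h1
      rw [h1]
      rfl
    exact key2 f' f hf' hfX (key1 f' hf' hund' hbV) hbf
  refine ⟨f, ?_⟩
  subst hz
  subst hX
  subst hU
  exact ⟨hfX, hsupp, hund, hNV, hTf, hinv, hnil⟩

end Pool.Agent.PP.T5.H56
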